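import Pool.Agent.Lib.MP_799fdf_al.Tx.FixSecB

/-! # The data of the engine, first kind -/

set_option autoImplicit false

open scoped commutatorElement

namespace MP799fdf

namespace Tx

open Inn
open Cop (TT TA)
open Tw (TB TC)
open Tz (CZ Dg)

variable {G : Type} [Group G] {U : TT G → Type} [∀ τ, Group (U τ)] (S : XSys G U)

instance tht_finite [Finite G] [∀ τ, Finite (U τ)] (τ : TT G) :
    Finite (Tht S τ) := by
  have h1 : Finite (TA G τ ≃* TA G τ) := inferInstance
  have h2 : Finite (U τ ≃* U τ) := inferInstance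
  exact inferInstanceAs (Finite (Subtype _))

/-- the data; PROOF of `conj`: copy of `mkEng` in `Tz/BuildU.lean`. -/
noncomputable def oneA [Finite G] [∀ τ, Finite (U τ)] {K : Type} [Group K] {L N : Subgroup K}
    (h : Loc L N) (hc : ⁅N, L⁆ = ⊥) {τ : TT G} (hτ : τ ∈ S.T) (a : K →* TA G τ) (π : U τ →* K)
    (hk : ∀ x, a x = 1 ↔ x ∈ cen L N h.nN) (hr : π.range = L)
    (ha : ∀ x, a (π x) = S.ep τ x) : One L a (QuotientGroup.mk' (TB G τ)) where
  W := U τ
  Q := Tht S τ
  pr := π.codRestrict L fun x => hr.le ⟨x, rfl⟩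
  prs := fun r => by
    obtain ⟨x, hx⟩ := hr.ge r.2
    exact ⟨x, Subtype.ext hx⟩
  q₀ := ⟨(MulEquiv.refl _, MulEquiv.refl _), fun _ => rfl, fun _ => rfl⟩
  tw := fun q => q.1.2.toMonoidHom
  ta := fun q => q.1.1
  tw₀ := fun x => rfl
  ta₀ := fun x => rfl
  uta := fun q x => q.2.2 x
  comp := fun q x => by
    show a (π (q.1.2 x)) = q.1.1 (a (π x))
    rw [ha, ha]
    exact q.2.1 x
  conj := fun α => by
    obtain ⟨b, hb⟩ := exists_conj S τ hτ α
    refine ⟨b.toMonoidHom, fun q k hkq x => ?_⟩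
    have h3 := eqv S h hc hk hr ha k
      ((q.1.2.toMonoidHom.comp b.toMonoidHom).comp q.1.2.symm.toMonoidHom) (fun y => ?_)
      (q.1.2 x)
    · have h4 : ((q.1.2.toMonoidHom.comp b.toMonoidHom).comp q.1.2.symm.toMonoidHom)
          (q.1.2 x) = q.1.2 (b x) := by
        show q.1.2 (b (q.1.2.symm (q.1.2 x))) = _
        rw [MulEquiv.symm_apply_apply]
      rw [h4] at h3
      exact h3
    · show S.ep τ (q.1.2 (b (q.1.2.symm y))) = _
      rw [q.2.1, hb, map_mul, map_mul, map_inv, ← q.2.1, MulEquiv.apply_symm_apply, ← hkq]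

/-- PROOF. As in `genM_monoU` (`Tz/FinU.lean`): if there is `x` in the kernel with `π x ≠ 1` fixed by all twists then `fix_sec`
gives a section `H / Y` and `hCU` for `B = (cen V ⊥).map a`; otherwise the second alternative. -/
theorem oneA_good [Finite G] [∀ τ, Finite (U τ)] (hCU : CU S) {K : Type} [Group K] [Finite K]
    {L N V : Subgroup K} (hV : IsMono V)
    (h : Loc L N) (hc : ⁅N, L⁆ = ⊥) {τ : TT G} (hτ : τ ∈ S.T) (a : K →* TA G τ) (π : U τ →* K)
    (hs : Function.Surjective a) (hk : ∀ x, a x = 1 ↔ x ∈ cen L N h.nN) (hr : π.range = L)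
    (ha : ∀ x, a (π x) = S.ep τ x) (hbn : (⊥ : Subgroup K).Normal) {p : ℕ} (hp : p.Prime)
    (hpV : p ∣ Nat.card V) : (oneA S h hc hτ a π hk hr ha).Good p (cen V ⊥ hbn) := by
  classical
  by_cases hx : ∃ x : U τ, (∀ q : Tht S τ, π (q.1.2 x) = π x) ∧ a (π x) = 1 ∧ π x ≠ 1
  · left
    obtain ⟨x, hx1, hx2, hx3⟩ := hx
    obtain ⟨H, Y, hSec, hHY, hact⟩ := fix_sec S hτ hV h hc hs hk hr ha hbn x hx1 hx2 hx3
    have h6 := hCU τ hτ H Y hSec p hp (by rw [hHY]; exact hpV) ((cen V ⊥ hbn).map a)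
      (by
        intro α hα b hb' z hz
        obtain ⟨k, hk', rfl⟩ := Subgroup.mem_map.1 hα
        exact hact k hk' b hb' z hz)
    rw [Subgroup.map_map] at h6
    exact h6
  · right
    intro x hx1 hx2
    by_contra hx3
    refine hx ⟨x, fun q => congrArg Subtype.val (hx1 q), hx2, fun e => hx3 (Subtype.ext e)⟩

end Tx

end MP799fdf
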