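import Pool.Agent.Lib.MP_799fdf_al.Tx.Defs

/-! # The data of the engine, second kind -/

set_option autoImplicit false

open scoped commutatorElement

namespace MP799fdf

namespace Tx

open Inn
open Cop (TT TA)
open Tw (TB TC)
open Tz (CZ Dg BC LI QL WL)

/-- the data, second kind: `W = L`, `Q` = the elements that are central modulo `L C(L)`, acting by conjugation.
PROOF. Take `W := L`, `Q := QL ⟨L, N, h⟩` (`Tz/BuildB.lean`), and copy the proofs of `exists_eng` in `Tz/BuildB.lean`
(for one index): `pr = id`, `tw q = conjNormal q.val`, `ta q = MulAut.conj (a q.val)`. The last fact: if `p` divides the order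
of the image of `cen V ⊥` then `Dg` (with `H = V`, `Y = ⊥`; `V ≤ N` by `hVN`) shows that not `BC`, and then the second
alternative: copy of `genM_mono` in `Tz/Fin.lean` (`Tz.bc_or`). -/
theorem exists_oneB {G : Type} [Group G] [Finite G] {K : Type} [Group K] [Finite K]
    {L N V : Subgroup K} (hV : IsMono V) (h : Loc L N) (hD : Dg h) (hVN : V ≤ N) {τ : TT G}
    (a : K →* TA G τ) (hs : Function.Surjective a) (hk : ∀ x, a x = 1 ↔ x ∈ cen L N h.nN)
    (hm : L.map a = TB G τ) (hbn : (⊥ : Subgroup K).Normal) {p : ℕ} (hp : p.Prime)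
    (hpV : p ∣ Nat.card V) :
    ∃ o : One L a (QuotientGroup.mk' (TB G τ)), o.Good p (cen V ⊥ hbn) := by
  classical
  have hn : L.Normal := h.nR
  have hVn := hV.nV
  let i : LI K := ⟨L, N, h⟩
  have hker : a.ker = cen L N h.nN := by
    ext x
    rw [MonoidHom.mem_ker]
    exact hk x
  have hrk : ((QuotientGroup.mk' (TB G τ)).comp a).ker = L ⊔ cen L N h.nN := by
    rw [← hker, ← MonoidHom.comap_ker, QuotientGroup.ker_mk', ← hm, Subgroup.comap_map_eq]
  have hcom : ∀ x, a x = 1 → ∀ y ∈ L, Commute x y := fun x hx =>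
    (Cop.cen_iff h hD.1 x).1 ((hk x).1 hx)
  have huta : ∀ (q : QL i) (x : TA G τ),
      QuotientGroup.mk' (TB G τ) (a q.val * x * (a q.val)⁻¹) = QuotientGroup.mk' (TB G τ) x := by
    intro q x
    obtain ⟨g, rfl⟩ := hs x
    have h3 : ⁅q.val, g⁆ ∈ ((QuotientGroup.mk' (TB G τ)).comp a).ker := by
      rw [hrk, Tz.cen_eq h hD.1]
      exact q.prop g
    rw [MonoidHom.mem_ker] at h3
    have h4 : a q.val * a g * (a q.val)⁻¹ = a ⁅q.val, g⁆ * a g := by
      rw [commutatorElement_def, map_mul, map_mul, map_mul, map_inv, map_inv]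
      group
    rw [h4, map_mul]
    have h5 : QuotientGroup.mk' (TB G τ) (a ⁅q.val, g⁆) = 1 := h3
    rw [h5, one_mul]
  have hconj0 : ∀ (α : TA G τ), ∃ κ : L →* L, ∀ (q k : K),
      a k = a q * α * (a q)⁻¹ → ∀ x : L,
        q * ((κ x : L) : K) * q⁻¹ = k * (q * (x : K) * q⁻¹) * k⁻¹ := by
    intro α
    obtain ⟨k₀, rfl⟩ := hs α
    refine ⟨(MulAut.conjNormal k₀ : MulAut L).toMonoidHom, fun q k hkk x => ?_⟩
    have e0 : (((MulAut.conjNormal k₀ : MulAut L).toMonoidHom x : L) : K) =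
        k₀ * x * k₀⁻¹ := rfl
    rw [e0]
    have h3 : a ((q * k₀ * q⁻¹)⁻¹ * k) = 1 := by
      rw [map_mul, hkk, map_inv, map_mul, map_mul, map_inv]
      group
    have h5 := hcom _ h3 (q * x * q⁻¹) (hn.conj_mem _ x.2 q)
    obtain ⟨w, hw⟩ : ∃ w, w = (q * k₀ * q⁻¹)⁻¹ * k := ⟨_, rfl⟩
    rw [← hw] at h5
    have h6 : k = q * k₀ * q⁻¹ * w := by rw [hw]; group
    have h7 : w * (q * x * q⁻¹) * w⁻¹ = q * x * q⁻¹ := by
      rw [h5.eq, mul_inv_cancel_right]
    rw [h6]
    calc q * (k₀ * x * k₀⁻¹) * q⁻¹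
        = q * k₀ * q⁻¹ * (q * x * q⁻¹) * (q * k₀ * q⁻¹)⁻¹ := by group
      _ = q * k₀ * q⁻¹ * (w * (q * x * q⁻¹) * w⁻¹) *
          (q * k₀ * q⁻¹)⁻¹ := by rw [h7]
      _ = _ := by group
  let pr : WL i →* L := MonoidHom.id L
  let tw : QL i → WL i →* WL i := fun q => (MulAut.conjNormal q.val : MulAut L).toMonoidHom
  have hpr : ∀ (x : WL i), (pr x : K) = x.val := fun x => rfl
  have htw : ∀ (q : QL i) (x : WL i), (tw q x).val = q.val * x.val * q.val⁻¹ :=
    fun q x => rfl
  have hinj : ∀ (x y : WL i), x.val = y.val → x = y := fun x y h => Subtype.ext h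
  have hone : ∀ (g : K), ⁅(1 : K), g⁆ ∈ i.1 ⊔ Subgroup.centralizer (i.1 : Set K) := by
    intro g
    rw [commutatorElement_one_left]
    exact Subgroup.one_mem _
  let q₀ : QL i := ⟨1, hone⟩
  have hq₀ : q₀.val = 1 := rfl
  have htw0 : ∀ (x : WL i), tw q₀ x = x := by
    intro x
    apply hinj
    rw [htw, hq₀, one_mul, inv_one, mul_one]
  have hprs : Function.Surjective pr := Function.surjective_id
  have hta0 : ∀ (x : TA G τ), MulAut.conj (a q₀.val) x = x := by
    intro x
    rw [hq₀, map_one, map_one]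
    rfl
  have hcomp : ∀ (q : QL i) (x : WL i),
      a (pr (tw q x)) = MulAut.conj (a q.val) (a (pr x)) := by
    intro q x
    rw [hpr, hpr, htw, map_mul, map_mul, map_inv, MulAut.conj_apply]
  have hconj : ∀ (α : TA G τ), ∃ κ : WL i →* WL i, ∀ (q : QL i) (k : K),
      a k = MulAut.conj (a q.val) α → ∀ x : WL i,
        (pr (tw q (κ x)) : K) = k * pr (tw q x) * k⁻¹ := by
    intro α
    obtain ⟨κ, hκ⟩ := hconj0 α
    refine ⟨κ, fun q k hk' x => ?_⟩
    rw [hpr, hpr, htw, htw]
    exact hκ q.val k hk' x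
  have huta' : ∀ (q : QL i) (x : TA G τ),
      QuotientGroup.mk' (TB G τ) (MulAut.conj (a q.val) x) = QuotientGroup.mk' (TB G τ) x := huta
  refine ⟨{ W := WL i
            Q := QL i
            pr := pr
            prs := hprs
            q₀ := q₀
            tw := tw
            ta := fun q => MulAut.conj (a q.val)
            tw₀ := htw0
            ta₀ := hta0
            uta := huta'
            comp := hcomp
            conj := hconj }, ?_⟩
  by_cases hBC : BC h (H := V) hbn
  · left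
    rw [← Subgroup.relIndex_ker, hrk]
    refine hD.2 V ⊥ hVn hbn (bot_lt_iff_ne_bot.2 hV.ne) hVN hBC p hp ?_
    rw [Subgroup.relIndex_bot_left]
    exact hpV
  · right
    intro x hx1 hx2
    change (∀ q : QL i, pr (tw q x) = pr x) at hx1
    change a (pr x) = 1 at hx2
    change pr x = 1
    by_contra hx3
    have hxR : (pr x : K) ∈ L := (pr x).2
    have hxN : (pr x : K) ∈ N := loc_inf_cen h ⟨hxR, (hk _).1 hx2⟩
    refine hBC (Tz.bc_or hV hbn h (pr x : K) hxN (fun c hc => ?_) fun e => ?_)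
    · have hc' : ∀ g : K, ⁅c, g⁆ ∈ i.1 ⊔ Subgroup.centralizer (i.1 : Set K) := by
        intro g
        rw [← Tz.cen_eq h hD.1]
        exact hc g
      let q : QL i := ⟨c, hc'⟩
      have hqv : q.val = c := rfl
      have h2 := congrArg Subtype.val (hx1 q)
      have h3 : ((pr (tw q x) : L) : K) = c * x.val * c⁻¹ := by
        rw [hpr, htw, hqv]
      have h4 : c * x.val * c⁻¹ = x.val := h3.symm.trans (h2.trans (hpr x))
      rw [hpr x]
      exact (mul_inv_eq_iff_eq_mul.1 h4)
    · exact hx3 (Subtype.ext e)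

end Tx

end MP799fdf
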