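import Pool.Agent.Lib.MP_799fdf_al.Tx.TyrB
import Pool.Agent.Lib.MP_799fdf_al.Tx.OneA
import Pool.Agent.Lib.MP_799fdf_al.Tx.OneB

/-! # The theorem for mixed systems -/

set_option autoImplicit false

open scoped commutatorElement

namespace MP799fdf

namespace Tx

open Inn
open Cop (TT TA TY ty_form)
open Tw (TB TC bd exp_N card_bot exists_loc_top)
open Tz (CZ Dg Eng LI bnd tz_card tz_bnd tz_small)

variable {G : Type} [Group G] {U : TT G → Type} [∀ τ, Group (U τ)] (S : XSys G U)

theorem exists_one [Finite G] [∀ τ, Finite (U τ)] (hCU : CU S) {K : Type} [Group K] [Finite K]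
    (hCZ : CZ K) (hX : TYX S K) {L N V : Subgroup K} (hV : IsMono V) (h : Loc L N) (hVN : V ≤ N)
    (hbn : (⊥ : Subgroup K).Normal) {p : ℕ} (hp : p.Prime) (hpV : p ∣ Nat.card V) :
    ∃ (τ : TT G) (a : K →* TA G τ), Function.Surjective a ∧
      (∀ x, a x = 1 ↔ x ∈ cen L N h.nN) ∧ L.map a = TB G τ ∧
        ∃ o : One L a (QuotientGroup.mk' (TB G τ)), o.Good p (cen V ⊥ hbn) := by
  rcases hX L N h with ⟨τ, hτ, a, π, hs, hk, hr, ha⟩ | ⟨hD, τ, hτ, a, hs, hk, hm⟩
  · refine ⟨τ, a, hs, hk, ?_, oneA S h (hCZ L N h) hτ a π hk hr ha,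
      oneA_good S hCU hV h (hCZ L N h) hτ a π hs hk hr ha hbn hp hpV⟩
    rw [← hr, MonoidHom.map_range, ← ep_range S τ]
    congr 1
    exact MonoidHom.ext ha
  · exact ⟨τ, a, hs, hk, hm, exists_oneB hV h hD hVN a hs hk hm hbn hp hpV⟩

/-- The case with a monolith. -/
theorem genM_monoX [Finite G] [∀ τ, Finite (U τ)] (hCU : CU S) (K : Type)
    [Group K] [Finite K] (hK : (form G).mem K) (hCZ : CZ K) (hX : TYX S K) {V : Subgroup K}
    (hV : IsMono V) :
    (genM (bnd G) K).mem K := by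
  classical
  have hTY := ty_form G K hK
  have hCB := chief_form K hK
  have hG1 : 1 ≤ Nat.card G := Nat.card_pos
  by_cases hne : ∃ L N : Subgroup K, Loc L N
  swap
  · push Not at hne
    exact tz_small (exists_loc_top hne) (hG1.trans (tz_bnd G))
  by_cases hbot : ∃ L : Subgroup K, Loc L ⊥
  · obtain ⟨L, hL⟩ := hbot
    refine tz_small (m := Nat.card K) ⟨⊥, inferInstance, inferInstance, ?_⟩
      ((card_bot G hTY hV hL).trans (tz_bnd G))
    rw [Subgroup.index_bot]
  have hVn := hV.nV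
  have hVN : ∀ L N : Subgroup K, Loc L N → V ≤ N := by
    intro L N h
    refine hV.le N h.nN fun e => hbot ⟨L, ?_⟩
    rw [← e]
    exact h
  have hcard : 1 < Nat.card V := by
    rw [Subgroup.one_lt_card_iff_ne_bot]
    exact hV.ne
  obtain ⟨p, hp, hpV⟩ := Nat.exists_prime_and_dvd (n := Nat.card V) (by omega)
  obtain ⟨b, hb⟩ := exp_N hV hp hpV
  have hbn : (⊥ : Subgroup K).Normal := inferInstance
  choose N hN using fun i : LI K => i.2
  choose t a hs hk hm o hgo using fun i : LI K =>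
    exists_one S hCU hCZ hX hV (hN i) (hVN _ _ (hN i)) hbn hp hpV
  obtain ⟨n, hn⟩ := Cop.solv_quot (⨆ i : LI K, i.1)
    (by
      have : ∀ i : LI K, (i.1).Normal := fun i => (hN i).nR
      infer_instance)
    (fun L M h => le_iSup (fun i : LI K => i.1) ⟨L, M, h⟩)
  let D : Eng K (LI K) (TT G) (TA G) (TC G) (fun i => (o i).W) (fun i => (o i).Q) :=
    { R := fun i => i.1
      t := t
      al := a
      u := fun τ => QuotientGroup.mk' (TB G τ)
      nR := fun i => (hN i).nR
      comm := fun i j hij x hx y hy =>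
        Cop.loc_comm (hN i) (hN j) (hCZ i.1 (N i) (hN i)) (hCZ j.1 (N j) (hN j))
          (fun h => hij (Subtype.ext h)) x hx y hy
      surj := hs
      usurj := fun τ => QuotientGroup.mk'_surjective (TB G τ)
      mapR := fun i x => by
        rw [QuotientGroup.mk'_apply, QuotientGroup.eq_one_iff, ← hm i]
        exact Subgroup.mem_map
      ker := fun i x => by
        rw [hk i x]
        exact Cop.cen_iff (hN i) (hCZ i.1 (N i) (hN i)) x
      n := n
      solv := hn
      pr := fun i => (o i).pr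
      prs := fun i => (o i).prs
      q₀ := fun i => (o i).q₀
      tw := fun i => (o i).tw
      ta := fun i => (o i).ta
      tw₀ := fun i => (o i).tw₀
      ta₀ := fun i => (o i).ta₀
      uta := fun i => (o i).uta
      comp := fun i => (o i).comp
      conj := fun i => (o i).conj }
  have : Fintype (LI K) := Fintype.ofFinite _
  have hGG : NeZero (Nat.card G * Nat.card G) := ⟨(Nat.mul_pos hG1 hG1).ne'⟩
  have hEn : (cen V ⊥ hbn).Normal := cen_normal V ⊥ hVn hbn
  have hEi : (cen V ⊥ hbn).index ≤ Nat.card G := cen_index hCB (mono_chief hV)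
  refine D.genM_eng (a := Nat.card G) (n := Nat.card G * Nat.card G) (tz_card G) hG1 hp
    (b := b) ?_ (cen V ⊥ hbn) hEn
    (fun τ => Nat.mul_le_mul ((Nat.card_le_card_of_surjective _
      (QuotientGroup.mk'_surjective (TB G τ))).trans (tz_card G τ)) hEi) hgo
  intro i z hz hz1
  have h4 : z ∈ N i := loc_inf_cen (hN i) ⟨hz, (hk i z).1 hz1⟩
  refine hb (N i) (hN i).nN (fun x hx y hy => ?_) z h4
  have h5 : ⁅x, y⁆ ∈ ⁅N i, i.1⁆ := Subgroup.commutator_mem_commutator hx ((hN i).lt.le hy)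
  rw [hCZ i.1 (N i) (hN i), Subgroup.mem_bot] at h5
  exact commutatorElement_eq_one_iff_commute.1 h5

/-- THE THEOREM. -/
theorem mainX [Finite G] [∀ τ, Finite (U τ)] (hCZ : CZ G) (hD : ∀ τ : TT G, τ ∉ S.T → Dg τ.2)
    (hCU : CU S) :
    {F : Formation | F.IsSub (form G)}.Finite := by
  obtain ⟨B, hB⟩ := genB_of_RB G (bnd G)
  refine finite_of_genB B fun K _ _ hK => ?_
  refine Tz.genM_of_mono G (bnd G) ((Nat.card_pos (α := G)).trans_le (tz_bnd G))
    (fun K _ _ hK V hV => ?_) K hK (genB B K) fun H _ _ hH => ?_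
  · obtain ⟨h1, h2⟩ := tyx_form S hCZ hD K hK
    exact genM_monoX S hCU K hK h1 h2 hV
  · exact genB_le hH.1 H (hB H (form_le (form G) hK H hH.1) hH.2)

end Tx

end MP799fdf
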