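import Pool.Agent.Lib.MP_799fdf_al.Tz.FinU

/-! # Mixed systems: definitions -/

set_option autoImplicit false

open scoped commutatorElement

namespace MP799fdf

namespace Tx

open Inn
open Cop (TT TA)
open Tw (TB TC)
open Tz (CZ Dg)

/-- For every local pair `τ` of `G` a perfect group `U τ` that is a central extension of `TB G τ` and has the local
subgroup as a quotient; for `τ` in a set `T` (closed under isomorphism) all isomorphisms lift. -/
structure XSys (G : Type) [Group G] (U : TT G → Type) [∀ τ, Group (U τ)] where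
  T : Set (TT G)
  ep : ∀ τ, U τ →* TA G τ
  perf : ∀ τ, ⁅(⊤ : Subgroup (U τ)), (⊤ : Subgroup (U τ))⁆ = ⊤
  cent : ∀ τ (z : U τ), ep τ z = 1 → ∀ x, Commute z x
  lift : ∀ τ ∈ T, ∀ (τ' : TT G) (β : TA G τ ≃* TA G τ'),
    (TB G τ).map β.toMonoidHom = TB G τ' → ∃ b : U τ ≃* U τ', ∀ x, ep τ' (b x) = β (ep τ x)
  clos : ∀ τ ∈ T, ∀ (τ' : TT G) (β : TA G τ ≃* TA G τ'),
    (TB G τ).map β.toMonoidHom = TB G τ' → τ' ∈ T
  bas : ∀ τ, ∃ π : U τ →* G, π.range = τ.1.1 ∧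
    ∀ x, QuotientGroup.mk' (cen τ.1.1 τ.1.2 τ.2.nN) (π x) = ep τ x

variable {G : Type} [Group G] {U : TT G → Type} [∀ τ, Group (U τ)] (S : XSys G U)

/-- the local subgroup is a quotient of some `U τ` with `τ ∈ T` -/
def FA {K : Type} [Group K] {L N : Subgroup K} (h : Loc L N) : Prop :=
  ∃ τ ∈ S.T, ∃ (a : K →* TA G τ) (π : U τ →* K), Function.Surjective a ∧
    (∀ x, a x = 1 ↔ x ∈ cen L N h.nN) ∧ π.range = L ∧ ∀ x, a (π x) = S.ep τ x

/-- the local pair satisfies the condition with inner twists and has a type outside `T` -/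
def SB {K : Type} [Group K] {L N : Subgroup K} (h : Loc L N) : Prop :=
  Dg h ∧ ∃ τ, τ ∉ S.T ∧ ∃ a : K →* TA G τ, Function.Surjective a ∧
    (∀ x, a x = 1 ↔ x ∈ cen L N h.nN) ∧ L.map a = TB G τ

/-- all local pairs are of one of the two kinds -/
def TYX (K : Type) [Group K] : Prop := ∀ (L N : Subgroup K) (h : Loc L N), FA S h ∨ SB S h

/-- copy of `Tz.ep_range` -/
theorem ep_range (τ : TT G) : (S.ep τ).range = TB G τ := by
  obtain ⟨π, hπ, h⟩ := S.bas τ
  have h1 : S.ep τ = (QuotientGroup.mk' (cen τ.1.1 τ.1.2 τ.2.nN)).comp π :=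
    MonoidHom.ext fun x => (h x).symm
  rw [h1, ← MonoidHom.map_range, hπ]
  rfl

/-- the twists: automorphisms of `TA G τ` that are trivial on the outer part, with lifts to `U τ` -/
def Tht (τ : TT G) : Type :=
  {q : (TA G τ ≃* TA G τ) × (U τ ≃* U τ) // (∀ x, S.ep τ (q.2 x) = q.1 (S.ep τ x)) ∧
    ∀ x, QuotientGroup.mk' (TB G τ) (q.1 x) = QuotientGroup.mk' (TB G τ) x}

/-- `H / Y` is a section of the kernel of `U τ → TA G τ`, `H` and `Y` are invariant under `TA G τ`, and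
the twists act trivially on `H / Y`. -/
def Sec (τ : TT G) (H Y : Subgroup (U τ)) : Prop :=
  (∀ z ∈ H, S.ep τ z = 1) ∧ Y < H ∧
    (∀ (α : TA G τ) (b : U τ ≃* U τ), (∀ x, S.ep τ (b x) = α * S.ep τ x * α⁻¹) →
      (∀ z ∈ H, b z ∈ H) ∧ ∀ z ∈ Y, b z ∈ Y) ∧
    ∀ (q : Tht S τ), ∀ z ∈ H, q.1.2 z * z⁻¹ ∈ Y

/-- the condition for the covers with `τ ∈ T` -/
def CU : Prop :=
  ∀ τ ∈ S.T, ∀ (H Y : Subgroup (U τ)), Sec S τ H Y → ∀ p : ℕ, p.Prime → p ∣ Y.relIndex H →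
    ∀ B : Subgroup (TA G τ), (∀ α ∈ B, ∀ b : U τ ≃* U τ,
      (∀ x, S.ep τ (b x) = α * S.ep τ x * α⁻¹) → ∀ z ∈ H, b z * z⁻¹ ∈ Y) →
      ¬ p ∣ Nat.card (B.map (QuotientGroup.mk' (TB G τ)))

/-- the data of the engine for one local subgroup -/
structure One {K A C : Type} [Group K] [Group A] [Group C] (R : Subgroup K) (al : K →* A)
    (u : A →* C) where
  W : Type
  Q : Type
  [gW : Group W]
  [fQ : Finite Q]
  pr : W →* R
  prs : Function.Surjective pr
  q₀ : Q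
  tw : Q → W →* W
  ta : Q → A ≃* A
  tw₀ : ∀ x, tw q₀ x = x
  ta₀ : ∀ a, ta q₀ a = a
  uta : ∀ q a, u (ta q a) = u a
  comp : ∀ q x, al (pr (tw q x)) = ta q (al (pr x))
  conj : ∀ a : A, ∃ κ : W →* W, ∀ q k, al k = ta q a → ∀ x,
    (pr (tw q (κ x)) : K) = k * pr (tw q x) * k⁻¹

attribute [instance] One.gW One.fQ

/-- the condition of the engine for one local subgroup -/
def One.Good {K A C : Type} [Group K] [Group A] [Group C] {R : Subgroup K} {al : K →* A}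
    {u : A →* C} (o : One R al u) (p : ℕ) (E : Subgroup K) : Prop :=
  ¬ p ∣ Nat.card (E.map (u.comp al)) ∨
    ∀ x : o.W, (∀ q, o.pr (o.tw q x) = o.pr x) → al (o.pr x) = 1 → o.pr x = 1

end Tx

end MP799fdf
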