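import Pool.Agent.Lib.MP_799fdf_al.Tx.Defs

/-! # Types and quotients -/

set_option autoImplicit false

open scoped commutatorElement

namespace MP799fdf

namespace Tx

open Inn
open Cop (TT TA)
open Tw (TB TC)
open Tz (CZ Dg)

/-- PROOF. As in `Tz.tyr_surj` (`Tz/Tyr.lean`). -/
theorem fac_surj {A B X : Type} [Group A] [Group B] [Group X] (f : A →* B)
    (hf : Function.Surjective f) {L N : Subgroup B} (hLN : Loc L N) {R' N' : Subgroup A}
    (h' : Loc R' N') (hmap : R'.map f = L) (hN' : N' = R' ⊓ N.comap f) (a' : A →* X)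
    (ha' : Function.Surjective a') (hker : ∀ x, a' x = 1 ↔ x ∈ cen R' N' h'.nN) :
    ∃ a : B →* X, Function.Surjective a ∧ (∀ x, a x = 1 ↔ x ∈ cen L N hLN.nN) ∧
      ∀ x, a (f x) = a' x := by
  have hcomm : ∀ x : A, ∀ y ∈ R', ⁅x, y⁆ ∈ R' := by
    intro x y hy
    rw [commutatorElement_def]
    exact R'.mul_mem (h'.nR.conj_mem y hy x) (R'.inv_mem hy)
  have hiff : ∀ x, x ∈ cen R' N' h'.nN ↔ f x ∈ cen L N hLN.nN := by
    intro x
    rw [mem_cen, mem_cen]
    constructor
    · intro hx y hy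
      rw [← hmap] at hy
      obtain ⟨y', hy', rfl⟩ := Subgroup.mem_map.1 hy
      have h1 := hx y' hy'
      rw [hN'] at h1
      rw [← map_commutatorElement]
      exact h1.2
    · intro hx y hy
      rw [hN']
      refine Subgroup.mem_inf.2 ⟨hcomm x y hy, ?_⟩
      rw [Subgroup.mem_comap, map_commutatorElement]
      refine hx _ ?_
      rw [← hmap]
      exact Subgroup.mem_map_of_mem f hy
  have hle : f.ker ≤ a'.ker := by
    intro x hx
    rw [MonoidHom.mem_ker] at hx ⊢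
    rw [hker, hiff, hx]
    exact Subgroup.one_mem _
  have ha : ∀ x, f.liftOfSurjective hf ⟨a', hle⟩ (f x) = a' x := fun x =>
    MonoidHom.liftOfRightInverse_comp_apply f _ (Function.rightInverse_surjInv hf) ⟨a', hle⟩ x
  refine ⟨f.liftOfSurjective hf ⟨a', hle⟩, ?_, ?_, ha⟩
  · intro y
    obtain ⟨x, hx⟩ := ha' y
    exact ⟨f x, by rw [ha, hx]⟩
  · intro x
    obtain ⟨x, rfl⟩ := hf x
    rw [ha, hker, hiff]

/-- PROOF. As in `Tz.tyr_case` (`Tz/Tyr.lean`). -/
theorem fac_case {K A X : Type} [Group K] [Finite K] [Group A] [Group X] (f : K →* A)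
    (hf : Function.Surjective f) {L N : Subgroup K} (h : Loc L N)
    (hL : ¬ L ≤ f.ker) (a' : A →* X) (ha' : Function.Surjective a')
    (hker : ∀ x, a' x = 1 ↔ x ∈ cen (L.map f) (N.map f) (loc_map f hf h hL).nN) :
    Function.Surjective (a'.comp f) ∧ ∀ x, (a'.comp f) x = 1 ↔ x ∈ cen L N h.nN := by
  refine ⟨ha'.comp hf, fun x => ?_⟩
  rw [MonoidHom.comp_apply, hker, mem_cen, mem_cen]
  constructor
  · intro hx y hy
    have h1 := hx (f y) (Subgroup.mem_map_of_mem f hy)
    rw [← map_commutatorElement] at h1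
    obtain ⟨n, hn, hfn⟩ := Subgroup.mem_map.1 h1
    have h2 : ⁅x, y⁆ * n⁻¹ ∈ L ⊓ f.ker := by
      refine Subgroup.mem_inf.2 ⟨?_, ?_⟩
      · rw [commutatorElement_def]
        exact L.mul_mem (L.mul_mem (h.nR.conj_mem y hy x) (L.inv_mem hy)) (L.inv_mem (h.lt.le hn))
      · rw [MonoidHom.mem_ker, map_mul, map_inv, hfn, mul_inv_cancel]
    have h3 := N.mul_mem (loc_inf_ker h hL h2) hn
    rwa [inv_mul_cancel_right] at h3
  · intro hx y hy
    obtain ⟨y', hy', rfl⟩ := Subgroup.mem_map.1 hy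
    rw [← map_commutatorElement]
    exact Subgroup.mem_map_of_mem f (hx y' hy')

end Tx

end MP799fdf
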