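import Pool.Agent.Lib.MP_799fdf_al.Tx.Eqv
import Pool.Agent.Lib.MP_799fdf_al.Inn.KStrB

/-! # The section that belongs to the monolith -/

set_option autoImplicit false

open scoped commutatorElement

namespace MP799fdf

namespace Tx

open Inn
open Cop (TT TA)
open Tw (TB TC)
open Tz (CZ Dg hom_unique exists_glue)

variable {G : Type} [Group G] {U : TT G → Type} [∀ τ, Group (U τ)] (S : XSys G U)

variable {K : Type} [Group K] [Finite K] {L N V : Subgroup K} {τ : TT G} {a : K →* TA G τ}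
  {π : U τ →* K}

/-- the elements of the kernel whose image in `K` is fixed by the twists -/
def Fx0 (π : U τ →* K) : Subgroup (U τ) where
  carrier := {z | S.ep τ z = 1 ∧ ∀ q : Tht S τ, π (q.1.2 z) = π z}
  one_mem' := ⟨map_one _, fun q => by rw [map_one]⟩
  mul_mem' := by
    rintro x y ⟨hx, hx'⟩ ⟨hy, hy'⟩
    refine ⟨by rw [map_mul, hx, hy, one_mul], fun q => ?_⟩
    rw [map_mul, map_mul, map_mul, hx' q, hy' q]
  inv_mem' := by
    rintro x ⟨hx, hx'⟩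
    refine ⟨by rw [map_inv, hx, inv_one], fun q => ?_⟩
    rw [map_inv, map_inv, map_inv, hx' q]

/-- PROOF. `a k = α` for some `k` (`hs`), so `π (b z) = k * π z * k⁻¹` (`eqv`). For a twist `q` the automorphism
`b' = q.1.2 ∘ b ∘ q.1.2.symm` of `U τ` satisfies `S.ep τ (b' x) = (q.1.1 α) * S.ep τ x * (q.1.1 α)⁻¹`; let `a k' = q.1.1 α`.
Then `π (q.1.2 (b z)) = π (b' (q.1.2 z)) = k' * π (q.1.2 z) * k'⁻¹ = k' * π z * k'⁻¹ = k * π z * k⁻¹` (`same_act`, with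
`π z ∈ N`: `π z ∈ L`, `a (π z) = 1`, `loc_inf_cen`). -/
theorem fx0_conj (h : Loc L N) (hc : ⁅N, L⁆ = ⊥) (hs : Function.Surjective a)
    (hk : ∀ x, a x = 1 ↔ x ∈ cen L N h.nN)
    (hr : π.range = L) (ha : ∀ x, a (π x) = S.ep τ x) (α : TA G τ) (b : U τ ≃* U τ)
    (hb : ∀ x, S.ep τ (b x) = α * S.ep τ x * α⁻¹) (z : U τ) (hz : z ∈ Fx0 S π) :
    b z ∈ Fx0 S π := by
  obtain ⟨k, hka⟩ := hs α
  have h1 : π (b z) = k * π z * k⁻¹ :=
    eqv S h hc hk hr ha k b.toMonoidHom (fun x => by rw [hka]; exact hb x) z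
  have hzL : π z ∈ L := by
    rw [← hr]
    exact ⟨z, rfl⟩
  have hzC : π z ∈ cen L N h.nN := by
    rw [← hk, ha]
    exact hz.1
  have hzN : π z ∈ N := loc_inf_cen h ⟨hzL, hzC⟩
  refine ⟨by rw [hb, hz.1, mul_one, mul_inv_cancel], fun q => ?_⟩
  obtain ⟨k', hka'⟩ := hs (q.1.1 α)
  have h2 : ∀ x, S.ep τ (q.1.2 (b (q.1.2.symm x))) = a k' * S.ep τ x * (a k')⁻¹ := by
    intro x
    rw [q.2.1, hb, map_mul, map_mul, map_inv, ← q.2.1, MulEquiv.apply_symm_apply, hka']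
  have h3 : π (q.1.2 (b (q.1.2.symm (q.1.2 z)))) = k' * π (q.1.2 z) * k'⁻¹ :=
    eqv S h hc hk hr ha k' ((q.1.2.symm.trans b).trans q.1.2).toMonoidHom h2 (q.1.2 z)
  rw [MulEquiv.symm_apply_apply, hz.2 q] at h3
  rw [h3, h1]
  refine (same_act S h hc hk hr ha k k' ?_ (π z) hzN).symm
  rw [hka, hka']
  exact (q.2.2 α).symm

end Tx

end MP799fdf
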