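import Pool.Agent.Lib.MP_799fdf_al.Tx.Fac
import Pool.Agent.Lib.MP_799fdf_al.Tx.CPC
import Pool.Agent.Lib.MP_799fdf_al.Tz.CPA

/-! # The two kinds of local pairs: `G` and quotients -/

set_option autoImplicit false

open scoped commutatorElement

namespace MP799fdf

namespace Tx

open Inn
open Cop (TT TA)
open Tw (TB TC)
open Tz (CZ Dg)

variable {G : Type} [Group G] {U : TT G → Type} [∀ τ, Group (U τ)] (S : XSys G U)

/-- PROOF. `τ = ⟨(L, N), h⟩`, `a = mk'`. If `τ ∈ T` the first kind, `π` from `S.bas`; otherwise the second (`L.map a = TB G τ`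
by definition). -/
theorem tyx_base (hD : ∀ τ : TT G, τ ∉ S.T → Dg τ.2) : TYX S G := by
  intro L N h
  have hn := cen_normal L N h.nR h.nN
  by_cases hT : (⟨(L, N), h⟩ : TT G) ∈ S.T
  · left
    obtain ⟨π, hπ, hπe⟩ := S.bas ⟨(L, N), h⟩
    exact ⟨⟨(L, N), h⟩, hT, QuotientGroup.mk' (cen L N h.nN), π,
      QuotientGroup.mk'_surjective _, fun x => QuotientGroup.eq_one_iff x, hπ, hπe⟩
  · right
    exact ⟨hD ⟨(L, N), h⟩ hT, ⟨(L, N), h⟩, hT, QuotientGroup.mk' (cen L N h.nN),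
      QuotientGroup.mk'_surjective _, fun x => QuotientGroup.eq_one_iff x, rfl⟩

/-- PROOF. `loc_lift`, `fac_surj`; first kind as in `Tz.tyr_surj`; second kind: `Tz.dg_lift`, and
`L.map a = (R'.map f).map a = R'.map a'`. -/
theorem tyx_surj {A B : Type} [Group A] [Finite A] [Group B] [Finite B] (f : A →* B)
    (hf : Function.Surjective f) (h : TYX S A) : TYX S B := by
  intro L N hLN
  obtain ⟨R', N', h', hmap, hN'⟩ := loc_lift f hf hLN
  rcases h R' N' h' with ⟨τ, hτ, a', π', ha', hker, hπ', hae⟩ | ⟨hD, τ, hτ, a', ha', hker, hma⟩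
  · left
    obtain ⟨a, h1, h2, h3⟩ := fac_surj f hf hLN h' hmap hN' a' ha' hker
    refine ⟨τ, hτ, a, f.comp π', h1, h2, ?_, fun x => ?_⟩
    · rw [MonoidHom.range_comp, hπ', hmap]
    · rw [MonoidHom.comp_apply, h3, hae]
  · right
    obtain ⟨a, h1, h2, h3⟩ := fac_surj f hf hLN h' hmap hN' a' ha' hker
    refine ⟨Tz.dg_lift f hf hLN h' hmap hN' hD, τ, hτ, a, h1, h2, ?_⟩
    rw [← hmap, Subgroup.map_map, ← hma]
    congr 1
    exact MonoidHom.ext h3

end Tx

end MP799fdf
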