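import Pool.Agent.Lib.MP_799fdf_al.Tx.Tyr
import Pool.Agent.Lib.MP_799fdf_al.Tz.Glue

/-! # The two kinds of local pairs: subdirect products -/

set_option autoImplicit false

open scoped commutatorElement

namespace MP799fdf

namespace Tx

open Inn
open Cop (TT TA)
open Tw (TB TC)
open Tz (CZ Dg hom_unique exists_glue)

variable {G : Type} [Group G] {U : TT G → Type} [∀ τ, Group (U τ)] (S : XSys G U)

private theorem txB_comm_left {B : Type} [Group B] (a z c : B) (h : Commute z c) :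
    ⁅a * z, c⁆ = ⁅a, c⁆ := by
  have h1 : z * c * z⁻¹ = c := by
    rw [h.eq, mul_inv_cancel_right]
  calc ⁅a * z, c⁆ = a * (z * c * z⁻¹) * a⁻¹ * c⁻¹ := by
        simp only [commutatorElement_def]
        group
    _ = ⁅a, c⁆ := by rw [h1, commutatorElement_def]

private theorem txB_comm_right {B : Type} [Group B] (a b z : B) (h : Commute z a) :
    ⁅a, b * z⁆ = ⁅a, b⁆ := by
  have h1 : z * a⁻¹ * z⁻¹ = a⁻¹ := by
    rw [h.inv_right.eq, mul_inv_cancel_right]
  calc ⁅a, b * z⁆ = a * b * (z * a⁻¹ * z⁻¹) * b⁻¹ := by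
        simp only [commutatorElement_def]
        group
    _ = ⁅a, b⁆ := by rw [h1, commutatorElement_def]

/-- Two surjections with the same kernel. -/
private theorem txB_equiv {K P Q : Type} [Group K] [Group P] [Group Q] (a : K →* P) (b : K →* Q)
    (ha : Function.Surjective a) (hb : Function.Surjective b) (hk : ∀ x, a x = 1 ↔ b x = 1) :
    ∃ β : P ≃* Q, ∀ x, β (a x) = b x := by
  have hle : a.ker ≤ b.ker := fun x hx => by
    rw [MonoidHom.mem_ker] at hx ⊢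
    exact (hk x).1 hx
  have hβ : ∀ x, a.liftOfSurjective ha ⟨b, hle⟩ (a x) = b x := fun x =>
    MonoidHom.liftOfRightInverse_comp_apply a _ (Function.rightInverse_surjInv ha) ⟨b, hle⟩ x
  have hbij : Function.Bijective (a.liftOfSurjective ha ⟨b, hle⟩) := by
    constructor
    · rw [injective_iff_map_eq_one]
      intro p hp
      obtain ⟨x, rfl⟩ := ha p
      rw [hβ] at hp
      exact (hk x).2 hp
    · intro q
      obtain ⟨x, rfl⟩ := hb q
      exact ⟨a x, hβ x⟩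
  exact ⟨MulEquiv.ofBijective _ hbij, hβ⟩

/-- The image of `L`, first kind. -/
private theorem txB_map {K A : Type} [Group K] [Group A] (f : K →* A) {L : Subgroup K} {τ : TT G}
    (a' : A →* TA G τ) (π : U τ →* A) (hr : π.range = L.map f) (hae : ∀ x, a' (π x) = S.ep τ x) :
    L.map (a'.comp f) = TB G τ := by
  rw [← ep_range S τ, ← Subgroup.map_map, ← hr, ← MonoidHom.range_comp]
  congr 1
  exact MonoidHom.ext hae

/-- One factor, on which `L` is embedded, first kind. PROOF. As `tyrB_one` in `Tz/TyrB.lean` (with `tyr_case` replaced by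
`fac_case`; the fact `he : ∀ x r, g x = π' r → a x = S.ep τ r` is `rw [MonoidHom.comp_apply, hxr, hae]`). -/
theorem fa_one {K B : Type} [Group K] [Finite K] [Group B] [Finite B] (g : K →* B)
    (hg : Function.Surjective g) {L N : Subgroup K} (hLN : Loc L N) (hLg : ¬ L ≤ g.ker)
    (hB : FA S (loc_map g hg hLN hLg)) (hinj : ∀ x ∈ L, g x = 1 → x = 1) : FA S hLN := by
  obtain ⟨τ, hτ, a', π', ha', hker, hr, hae⟩ := hB
  obtain ⟨ha, hk⟩ := fac_case g hg hLN hLg a' ha' hker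
  have he : ∀ x r, g x = π' r → (a'.comp g) x = S.ep τ r := fun x r hxr => by
    rw [MonoidHom.comp_apply, hxr, hae]
  have hr1 : ∀ r, π' r ∈ L.map g := fun r => by
    rw [← hr]
    exact ⟨r, rfl⟩
  obtain ⟨π, hπL, hπg, -⟩ := exists_glue (S.perf τ) L g g π' π'
    (fun x hx h1 _ => hinj x hx h1)
    (fun r => by
      obtain ⟨x, hx, hgx⟩ := hr1 r
      exact ⟨x, hx, hgx⟩)
    (fun r x _ hgx y _ => by
      rw [hgx, inv_mul_cancel]
      exact Commute.one_left _) hr1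
  refine ⟨τ, hτ, a'.comp g, π, ha, hk, le_antisymm ?_ ?_, fun r => he (π r) r (hπg r)⟩
  · rintro _ ⟨r, rfl⟩
    exact hπL r
  · intro x hx
    have h1 : g x ∈ π'.range := by
      rw [hr]
      exact Subgroup.mem_map_of_mem g hx
    obtain ⟨r, h2⟩ := h1
    refine ⟨r, ?_⟩
    have h3 := hinj (π r * x⁻¹) (L.mul_mem (hπL r) (L.inv_mem hx))
      (by rw [map_mul, map_inv, hπg, h2, mul_inv_cancel])
    exact mul_inv_eq_one.1 h3

/-- Both factors, first kind. PROOF. The last part of `Tz.tyr_sub` in `Tz/TyrB.lean` (with `tyr_case` replaced by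
`fac_case`; `L.map (a.comp f) = TB G τ` because `(L.map f).map a = π.range.map a = (S.ep τ).range`, `ep_range`;
`S.lift τ₁ hτ₁ τ₂ β hβB`). The type of the result is `τ₁`. -/
theorem fa_two {K A B : Type} [Group K] [Finite K] [Group A] [Finite A] [Group B] [Finite B]
    (f : K →* A) (g : K →* B) (hf : Function.Surjective f) (hg : Function.Surjective g)
    (hK : CZ K) (h : ∀ x, f x = 1 → g x = 1 → x = 1) {L N : Subgroup K} (hLN : Loc L N)
    (hLf : ¬ L ≤ f.ker) (hLg : ¬ L ≤ g.ker) (hA : FA S (loc_map f hf hLN hLf))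
    (hB : FA S (loc_map g hg hLN hLg)) : FA S hLN := by
  obtain ⟨τ₁, hτ₁, a₁', π₁, ha₁', hker₁, hr₁, hae₁⟩ := hA
  obtain ⟨τ₂, hτ₂, a₂', π₂, ha₂', hker₂, hr₂, hae₂⟩ := hB
  obtain ⟨ha₁, hk₁⟩ := fac_case f hf hLN hLf a₁' ha₁' hker₁
  obtain ⟨ha₂, hk₂⟩ := fac_case g hg hLN hLg a₂' ha₂' hker₂
  have hm₁ := txB_map S f a₁' π₁ hr₁ hae₁
  have hm₂ := txB_map S g a₂' π₂ hr₂ hae₂
  have he₁ : ∀ x r, f x = π₁ r → (a₁'.comp f) x = S.ep τ₁ r := fun x r hxr => by
    rw [MonoidHom.comp_apply, hxr, hae₁]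
  have he₂ : ∀ x r, g x = π₂ r → (a₂'.comp g) x = S.ep τ₂ r := fun x r hxr => by
    rw [MonoidHom.comp_apply, hxr, hae₂]
  have hN0 := hK L N hLN
  obtain ⟨β, hβ⟩ := txB_equiv (a₁'.comp f) (a₂'.comp g) ha₁ ha₂ fun x => by rw [hk₁, hk₂]
  have hβB : (TB G τ₁).map β.toMonoidHom = TB G τ₂ := by
    rw [← hm₁, ← hm₂, Subgroup.map_map]
    congr 1
    exact MonoidHom.ext hβ
  obtain ⟨b, hb⟩ := S.lift τ₁ hτ₁ τ₂ β hβB
  have hr1 : ∀ r, π₁ r ∈ L.map f := fun r => by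
    rw [← hr₁]
    exact ⟨r, rfl⟩
  have hr2 : ∀ r, π₂ (b r) ∈ L.map g := fun r => by
    rw [← hr₂]
    exact ⟨b r, rfl⟩
  obtain ⟨π, hπL, hπf, -⟩ := exists_glue (S.perf τ₁) L f g π₁ (π₂.comp b.toMonoidHom)
    (fun x _ => h x)
    (fun r => by
      obtain ⟨x, hx, hfx⟩ := hr1 r
      exact ⟨x, hx, hfx⟩)
    (fun r x _ hfx y hy => by
      obtain ⟨x', hx', hgx'⟩ := hr2 r
      have e1 : (a₂'.comp g) x' = S.ep τ₂ (b r) := he₂ x' (b r) hgx'
      have e2 : (a₂'.comp g) x = S.ep τ₂ (b r) := by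
        rw [hb, ← he₁ x r hfx, hβ]
      have e3 : x'⁻¹ * x ∈ cen L N hLN.nN := by
        rw [← hk₂, map_mul, map_inv, e1, e2, inv_mul_cancel]
      have e4 := (Cop.cen_iff hLN hN0 _).1 e3 y hy
      have e5 := e4.map g
      rw [map_mul, map_inv, hgx'] at e5
      exact e5) hr2
  refine ⟨τ₁, hτ₁, a₁'.comp f, π, ha₁, hk₁, le_antisymm ?_ ?_, fun r => he₁ (π r) r (hπf r)⟩
  · rintro _ ⟨r, rfl⟩
    exact hπL r
  · have hcN : ∀ n ∈ N, ∀ y ∈ L, Commute n y := by
      intro n hn y hy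
      have h1 : ⁅n, y⁆ ∈ ⁅N, L⁆ := Subgroup.commutator_mem_commutator hn hy
      rw [hN0, Subgroup.mem_bot] at h1
      exact commutatorElement_eq_one_iff_commute.1 h1
    have hdec : ∀ x ∈ L, ∃ r, ∃ n ∈ N, x = π r * n := by
      intro x hx
      have h1 : f x ∈ π₁.range := by
        rw [hr₁]
        exact Subgroup.mem_map_of_mem f hx
      obtain ⟨r, h2⟩ := h1
      refine ⟨r, (π r)⁻¹ * x, loc_inf_ker hLN hLf (Subgroup.mem_inf.2 ⟨?_, ?_⟩), ?_⟩
      · exact L.mul_mem (L.inv_mem (hπL r)) hx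
      · rw [MonoidHom.mem_ker, map_mul, map_inv, hπf, h2, inv_mul_cancel]
      · rw [mul_inv_cancel_left]
    have h1 : ⁅L, L⁆ ≤ π.range := by
      rw [Subgroup.commutator_le]
      intro x hx y hy
      obtain ⟨r, n, hn, rfl⟩ := hdec x hx
      obtain ⟨t, m, hm, rfl⟩ := hdec y hy
      rw [txB_comm_left _ _ _ (hcN n hn _ hy), txB_comm_right _ _ _ (hcN m hm _ (hπL r)),
        ← map_commutatorElement]
      exact ⟨⁅r, t⁆, rfl⟩
    rw [hLN.perf] at h1
    exact h1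

/-- The kinds cannot be mixed. PROOF. `fac_case` for `f` and for `g` gives `a₁ : K →* TA G τ₁` and `a₂ : K →* TA G τ₂`,
surjective with the same kernel `cen L N`, so there is `β` with `β (a₁ x) = a₂ x` (`tyrB_equiv` in `Tz/TyrB.lean`), it maps
`TB G τ₁ = L.map a₁` (`ep_range`) to `L.map a₂ = TB G τ₂`. By `S.clos` `τ₂ ∈ T`, a contradiction. -/
theorem no_mix {K A B : Type} [Group K] [Finite K] [Group A] [Finite A] [Group B] [Finite B]
    (f : K →* A) (g : K →* B) (hf : Function.Surjective f) (hg : Function.Surjective g)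
    {L N : Subgroup K} (hLN : Loc L N)
    (hLf : ¬ L ≤ f.ker) (hLg : ¬ L ≤ g.ker) (hA : FA S (loc_map f hf hLN hLf))
    (hB : SB S (loc_map g hg hLN hLg)) : False := by
  obtain ⟨τ₁, hτ₁, a₁', π₁, ha₁', hker₁, hr₁, hae₁⟩ := hA
  obtain ⟨-, τ₂, hτ₂, a₂', ha₂', hker₂, hma₂⟩ := hB
  obtain ⟨ha₁, hk₁⟩ := fac_case f hf hLN hLf a₁' ha₁' hker₁
  obtain ⟨ha₂, hk₂⟩ := fac_case g hg hLN hLg a₂' ha₂' hker₂
  have hm₁ := txB_map S f a₁' π₁ hr₁ hae₁
  have hm₂ : L.map (a₂'.comp g) = TB G τ₂ := by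
    rw [← Subgroup.map_map, hma₂]
  obtain ⟨β, hβ⟩ := txB_equiv (a₁'.comp f) (a₂'.comp g) ha₁ ha₂ fun x => by rw [hk₁, hk₂]
  have hβB : (TB G τ₁).map β.toMonoidHom = TB G τ₂ := by
    rw [← hm₁, ← hm₂, Subgroup.map_map]
    congr 1
    exact MonoidHom.ext hβ
  exact hτ₂ (S.clos τ₁ hτ₁ τ₂ β hβB)

/-- Second kind. -/
theorem sb_sub {K A B : Type} [Group K] [Finite K] [Group A] [Finite A] [Group B] [Finite B]
    (f : K →* A) (g : K →* B) (hf : Function.Surjective f) (hg : Function.Surjective g)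
    (h : ∀ x, f x = 1 → g x = 1 → x = 1) {L N : Subgroup K} (hLN : Loc L N)
    (hLf : ¬ L ≤ f.ker) (hA : SB S (loc_map f hf hLN hLf))
    (hB : ∀ hLg : ¬ L ≤ g.ker, SB S (loc_map g hg hLN hLg)) : SB S hLN := by
  obtain ⟨hD, τ, hτ, a', ha', hker, hma⟩ := hA
  obtain ⟨h1, h2⟩ := fac_case f hf hLN hLf a' ha' hker
  refine ⟨dg_sub f g hf hg h hLN (fun _ => hD) (fun hLg => (hB hLg).1), τ, hτ, a'.comp f, h1, h2,
    ?_⟩
  rw [← Subgroup.map_map, hma]

theorem tyx_sub {K A B : Type} [Group K] [Finite K] [Group A] [Finite A] [Group B] [Finite B]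
    (f : K →* A) (g : K →* B) (hf : Function.Surjective f) (hg : Function.Surjective g)
    (hA : TYX S A) (hB : TYX S B) (hK : CZ K) (h : ∀ x, f x = 1 → g x = 1 → x = 1) :
    TYX S K := by
  intro L N hLN
  have h' : ∀ x, g x = 1 → f x = 1 → x = 1 := fun x hx hy => h x hy hx
  have hne : ∀ e : L ≤ f.ker, L ≤ g.ker → False := fun h1 h2 => hLN.ne_bot (by
    rw [eq_bot_iff]
    intro x hx
    exact Subgroup.mem_bot.2 (h x (h1 hx) (h2 hx)))
  by_cases hLf : L ≤ f.ker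
  · have hLg : ¬ L ≤ g.ker := fun h2 => hne hLf h2
    rcases hB _ _ (loc_map g hg hLN hLg) with h1 | h1
    · exact Or.inl (fa_one S g hg hLN hLg h1 fun x hx hgx => h x (hLf hx) hgx)
    · exact Or.inr (sb_sub S g f hg hf h' hLN hLg h1 fun h2 => absurd hLf h2)
  · by_cases hLg : L ≤ g.ker
    · rcases hA _ _ (loc_map f hf hLN hLf) with h1 | h1
      · exact Or.inl (fa_one S f hf hLN hLf h1 fun x hx hfx => h x hfx (hLg hx))
      · exact Or.inr (sb_sub S f g hf hg h hLN hLf h1 fun h2 => absurd hLg h2)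
    · rcases hA _ _ (loc_map f hf hLN hLf) with h1 | h1
      · rcases hB _ _ (loc_map g hg hLN hLg) with h2 | h2
        · exact Or.inl (fa_two S f g hf hg hK h hLN hLf hLg h1 h2)
        · exact (no_mix S f g hf hg hLN hLf hLg h1 h2).elim
      · rcases hB _ _ (loc_map g hg hLN hLg) with h2 | h2
        · exact (no_mix S g f hg hf hLN hLg hLf h2 h1).elim
        · exact Or.inr (sb_sub S f g hf hg h hLN hLf h1 fun _ => h2)

theorem tyx_form [Finite G] (hG : CZ G) (hD : ∀ τ : TT G, τ ∉ S.T → Dg τ.2) (K : Type)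
    [Group K] [Finite K] (hK : (form G).mem K) : CZ K ∧ TYX S K :=
  form_induction (G := G) (fun H _ _ => CZ H ∧ TYX S H)
    (fun _ _ _ _ _ _ f hf h => ⟨Tz.cz_surj f hf h.1, tyx_surj S f hf h.2⟩)
    (fun _ _ _ _ _ _ _ _ _ f g hf hg hA hB h =>
      ⟨Tz.cz_sub f g hf hg hA.1 hB.1 h, tyx_sub S f g hf hg hA.2 hB.2
        (Tz.cz_sub f g hf hg hA.1 hB.1 h) h⟩) ⟨hG, tyx_base S hD⟩ K hK

end Tx

end MP799fdf
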